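import Mathlib

/-! Adapted from `Pool.Agent.H376R3.Bae1`: the exponent `2` is replaced by a conjugate pair. -/

set_option autoImplicit false
set_option linter.unusedSectionVars false

namespace Pool.Agent.Y767.KG

open Filter Topology

/-- a conjugate pair of exponents -/
structure Ex where
  /-- the primal exponent -/
  p : ℝ
  /-- the dual exponent -/
  q : ℝ
  h : p.HolderConjugate q

lemma Ex.p1 (e : Ex) : 1 < e.p := e.h.lt
lemma Ex.p0 (e : Ex) : 0 < e.p := e.h.pos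
lemma Ex.q0 (e : Ex) : 0 < e.q := e.h.symm.pos
lemma Ex.q1 (e : Ex) : 1 < e.q := e.h.symm.lt

lemma le_one_left (e : Ex) {α β : ℝ} (hα : 0 ≤ α) (hβ : 0 ≤ β) (h : α ^ e.q + β ^ e.q ≤ 1) :
    α ≤ 1 := by
  have h1 : 0 ≤ β ^ e.q := Real.rpow_nonneg hβ _
  have h2 : α ^ e.q ≤ 1 := by linarith
  by_contra hc
  push Not at hc
  exact absurd (Real.one_lt_rpow hc e.q0) (not_lt.2 h2)

lemma le_one_right (e : Ex) {α β : ℝ} (hα : 0 ≤ α) (hβ : 0 ≤ β) (h : α ^ e.q + β ^ e.q ≤ 1) :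
    β ≤ 1 := le_one_left e hβ hα (by linarith)

/-- the two-dimensional norm -/
noncomputable def N2 (e : Ex) (a b : ℝ) : ℝ := (a ^ e.p + b ^ e.p) ^ (1 / e.p)

section N2

variable (e : Ex) {a b c α β : ℝ}

lemma N2_nonneg (ha : 0 ≤ a) (hb : 0 ≤ b) : 0 ≤ N2 e a b := by
  have h1 := Real.rpow_nonneg ha e.p
  have h2 := Real.rpow_nonneg hb e.p
  exact Real.rpow_nonneg (by linarith) _

lemma N2_rpow (ha : 0 ≤ a) (hb : 0 ≤ b) : N2 e a b ^ e.p = a ^ e.p + b ^ e.p := by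
  have h1 := Real.rpow_nonneg ha e.p
  have h2 := Real.rpow_nonneg hb e.p
  rw [N2, ← Real.rpow_mul (by linarith), one_div, inv_mul_cancel₀ e.p0.ne', Real.rpow_one]

lemma N2_comm : N2 e a b = N2 e b a := by rw [N2, N2, add_comm]

lemma N2_mono {a' b' : ℝ} (ha : 0 ≤ a) (hb : 0 ≤ b) (h1 : a ≤ a') (h2 : b ≤ b') :
    N2 e a b ≤ N2 e a' b' := by
  unfold N2
  have := e.p0
  apply Real.rpow_le_rpow
  · exact add_nonneg (Real.rpow_nonneg ha _) (Real.rpow_nonneg hb _)
  · exact add_le_add (Real.rpow_le_rpow ha h1 this.le) (Real.rpow_le_rpow hb h2 this.le)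
  · positivity

lemma le_N2_left (ha : 0 ≤ a) (hb : 0 ≤ b) : a ≤ N2 e a b := by
  rw [← Real.rpow_le_rpow_iff ha (N2_nonneg e ha hb) e.p0, N2_rpow e ha hb]
  have := Real.rpow_nonneg hb e.p
  linarith

lemma le_N2_right (ha : 0 ≤ a) (hb : 0 ≤ b) : b ≤ N2 e a b := by
  rw [N2_comm]
  exact le_N2_left e hb ha

lemma N2_assoc (ha : 0 ≤ a) (hb : 0 ≤ b) (hc : 0 ≤ c) :
    N2 e a (N2 e b c) = N2 e (N2 e a b) c := by
  have h1 : N2 e a (N2 e b c) = (a ^ e.p + N2 e b c ^ e.p) ^ (1 / e.p) := rfl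
  have h2 : N2 e (N2 e a b) c = (N2 e a b ^ e.p + c ^ e.p) ^ (1 / e.p) := rfl
  rw [h1, h2, N2_rpow e hb hc, N2_rpow e ha hb, add_assoc]

lemma N2_holder (ha : 0 ≤ a) (hb : 0 ≤ b) (hα : 0 ≤ α) (hβ : 0 ≤ β)
    (h : α ^ e.q + β ^ e.q ≤ 1) : α * a + β * b ≤ N2 e a b := by
  have h0 := N2_nonneg e ha hb
  rcases h0.eq_or_lt with h1 | hpos
  · have h2 := le_N2_left e ha hb
    have h3 := le_N2_right e ha hb
    have h4 : a = 0 := le_antisymm (by linarith) ha
    have h5 : b = 0 := le_antisymm (by linarith) hb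
    rw [← h1, h4, h5]
    simp
  · set s := N2 e a b with hs
    have h2 := Real.young_inequality_of_nonneg (div_nonneg ha hpos.le) hα e.h
    have h3 := Real.young_inequality_of_nonneg (div_nonneg hb hpos.le) hβ e.h
    rw [Real.div_rpow ha hpos.le] at h2
    rw [Real.div_rpow hb hpos.le] at h3
    have h4 : a ^ e.p / s ^ e.p + b ^ e.p / s ^ e.p = 1 := by
      rw [← add_div, ← N2_rpow e ha hb, ← hs, div_self]
      exact (Real.rpow_pos_of_pos hpos _).ne'
    have h5 : a / s * α + b / s * β ≤ 1 := by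
      have h6 := e.h.inv_add_inv_eq_one
      have hp := e.p0
      have hq := e.q0
      calc a / s * α + b / s * β ≤ (a ^ e.p / s ^ e.p / e.p + α ^ e.q / e.q) +
            (b ^ e.p / s ^ e.p / e.p + β ^ e.q / e.q) := add_le_add h2 h3
        _ = (a ^ e.p / s ^ e.p + b ^ e.p / s ^ e.p) * e.p⁻¹ + (α ^ e.q + β ^ e.q) * e.q⁻¹ := by
            ring
        _ ≤ 1 * e.p⁻¹ + 1 * e.q⁻¹ := by
            rw [h4]
            have : 0 ≤ e.q⁻¹ := by positivity
            nlinarith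
        _ = 1 := by rw [one_mul, one_mul, h6]
    have h6 : a / s * α + b / s * β = (α * a + β * b) / s := by ring
    rw [h6, div_le_one hpos] at h5
    exact h5

lemma N2_norming (ha : 0 ≤ a) (hb : 0 ≤ b) (h : 0 < N2 e a b) :
    ∃ α β : ℝ, 0 ≤ α ∧ 0 ≤ β ∧ α ^ e.q + β ^ e.q ≤ 1 ∧ α * a + β * b = N2 e a b := by
  set s := N2 e a b with hs
  have hp := e.p1
  have ha' : 0 ≤ a / s := by positivity
  have hb' : 0 ≤ b / s := by positivity
  have h4 : (a / s) ^ e.p + (b / s) ^ e.p = 1 := by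
    rw [Real.div_rpow ha h.le, Real.div_rpow hb h.le, ← add_div, ← N2_rpow e ha hb, ← hs, div_self]
    exact (Real.rpow_pos_of_pos h _).ne'
  have h5 : ∀ x : ℝ, 0 ≤ x → (x ^ (e.p - 1)) ^ e.q = x ^ e.p := by
    intro x hx
    rw [← Real.rpow_mul hx]
    congr 1
    exact e.h.sub_one_mul_conj
  have h6 : ∀ x : ℝ, 0 ≤ x → x ^ (e.p - 1) * x = x ^ e.p := by
    intro x hx
    rcases hx.eq_or_lt with h | h
    · rw [← h, mul_zero, Real.zero_rpow e.p0.ne']
    · conv_lhs => rw [← Real.rpow_one x]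
      rw [Real.rpow_one x]
      nth_rewrite 2 [← Real.rpow_one x]
      rw [← Real.rpow_add h]
      congr 1
      ring
  refine ⟨(a / s) ^ (e.p - 1), (b / s) ^ (e.p - 1), Real.rpow_nonneg ha' _, Real.rpow_nonneg hb' _,
    ?_, ?_⟩
  · rw [h5 _ ha', h5 _ hb', h4]
  · have h7 : (a / s) ^ (e.p - 1) * a + (b / s) ^ (e.p - 1) * b =
        s * ((a / s) ^ (e.p - 1) * (a / s) + (b / s) ^ (e.p - 1) * (b / s)) := by
      field_simp
    rw [h7, h6 _ ha', h6 _ hb', h4, mul_one]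

lemma N2_le_of_le_one (ha : 0 ≤ a) (hb : 0 ≤ b) (ha1 : a ≤ 1) (hb1 : b ≤ 1) :
    N2 e a b ≤ 2 ^ (1 / e.p) := by
  refine (N2_mono e ha hb ha1 hb1).trans (le_of_eq ?_)
  rw [N2, Real.one_rpow]
  norm_num

lemma two_rpow_lt : (2:ℝ) ^ (1 / e.p) < 2 := by
  have h := e.p1
  calc (2:ℝ) ^ (1 / e.p) < 2 ^ (1:ℝ) := by
        apply Real.rpow_lt_rpow_of_exponent_lt (by norm_num)
        rw [div_lt_one e.p0]
        exact h
    _ = 2 := Real.rpow_one 2

lemma add_le_of_N2 (ha : 0 ≤ a) (hb : 0 ≤ b) (h : N2 e a b ≤ 1) : a + b ≤ 2 ^ (1 / e.q) := by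
  set t : ℝ := (2:ℝ) ^ (1 / e.q) with ht
  have ht0 : 0 < t := Real.rpow_pos_of_pos (by norm_num) _
  have h1 : (t⁻¹) ^ e.q = 1 / 2 := by
    rw [Real.inv_rpow ht0.le, ht, ← Real.rpow_mul (by norm_num), one_div,
      inv_mul_cancel₀ e.q0.ne', Real.rpow_one]
    norm_num
  have h2 := N2_holder e ha hb (inv_nonneg.2 ht0.le) (inv_nonneg.2 ht0.le) (by rw [h1]; norm_num)
  have h3 : t⁻¹ * (a + b) ≤ 1 := by linarith
  rwa [inv_mul_le_iff₀ ht0, mul_one] at h3

end N2

/-- the norming family -/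
inductive Gd (e : Ex) : (ℕ → ℝ) → Prop
  | base (A : Finset ℕ) (g : ℕ → ℝ) (hA : ∀ i ∈ A, A.card ≤ i + 1) (h1 : ∀ i, i ∉ A → g i = 0)
      (h2 : ∀ i, |g i| ≤ 1) : Gd e g
  | comb (M : ℕ) (g h : ℕ → ℝ) (hg : Gd e g) (hh : Gd e h) (α β : ℝ) (hα : 0 ≤ α) (hβ : 0 ≤ β)
      (hαβ : α ^ e.q + β ^ e.q ≤ 1) : Gd e (fun i => if i < M then α * g i else β * h i)

variable {e : Ex}

lemma Gd.abs_le {g : ℕ → ℝ} (hg : Gd e g) (i : ℕ) : |g i| ≤ 1 := by
  induction hg with
  | base A g hA h1 h2 => exact h2 i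
  | comb M g h hg hh α β hα hβ hαβ ihg ihh =>
    have h1 : α ≤ 1 := le_one_left e hα hβ hαβ
    have h2 : β ≤ 1 := le_one_right e hα hβ hαβ
    simp only
    split_ifs
    · rw [abs_mul, abs_of_nonneg hα]
      nlinarith [abs_nonneg (g i)]
    · rw [abs_mul, abs_of_nonneg hβ]
      nlinarith [abs_nonneg (h i)]

lemma Gd.neg {g : ℕ → ℝ} (hg : Gd e g) : Gd e (fun i => -(g i)) := by
  induction hg with
  | base A g hA h1 h2 =>
    refine Gd.base A _ hA (fun i hi => by rw [h1 i hi, neg_zero]) (fun i => by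
      rw [abs_neg]; exact h2 i)
  | comb M g h hg hh α β hα hβ hαβ ihg ihh =>
    have := Gd.comb M _ _ ihg ihh α β hα hβ hαβ
    have h3 : (fun i => -(if i < M then α * g i else β * h i)) =
        fun i => if i < M then α * -(g i) else β * -(h i) := by
      funext i
      split_ifs <;> ring
    rw [h3]
    exact this

lemma Gd.zero : Gd e (fun _ => 0) := Gd.base ∅ _ (by simp) (by simp) (by simp)

/-- pairing -/
noncomputable def pr (g : ℕ → ℝ) : (ℕ →₀ ℝ) →ₗ[ℝ] ℝ := Finsupp.linearCombination ℝ g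

lemma pr_apply (g : ℕ → ℝ) (y : ℕ →₀ ℝ) : pr g y = ∑ i ∈ y.support, y i * g i := by
  unfold pr
  rw [Finsupp.linearCombination_apply]
  rfl

lemma pr_eq (g : ℕ → ℝ) (y : ℕ →₀ ℝ) {s : Finset ℕ} (hs : y.support ⊆ s) :
    pr g y = ∑ i ∈ s, y i * g i := by
  rw [pr_apply]
  apply Finset.sum_subset hs
  intro i _ hi
  rw [Finsupp.notMem_support_iff.1 hi, zero_mul]

lemma pr_congr {g h : ℕ → ℝ} {y : ℕ →₀ ℝ} (H : ∀ i, y i * g i = y i * h i) : pr g y = pr h y := by
  rw [pr_apply, pr_apply]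
  exact Finset.sum_congr rfl (fun i _ => H i)

/-- head -/
noncomputable def Pt (M : ℕ) (y : ℕ →₀ ℝ) : ℕ →₀ ℝ := y.filter (fun i => i < M)

/-- tail -/
noncomputable def Tt (M : ℕ) (y : ℕ →₀ ℝ) : ℕ →₀ ℝ := y.filter (fun i => M ≤ i)

lemma Pt_apply (M : ℕ) (y : ℕ →₀ ℝ) (i : ℕ) : Pt M y i = if i < M then y i else 0 :=
  Finsupp.filter_apply _ _ _

lemma Tt_apply (M : ℕ) (y : ℕ →₀ ℝ) (i : ℕ) : Tt M y i = if M ≤ i then y i else 0 :=
  Finsupp.filter_apply _ _ _

lemma Pt_add (M : ℕ) (y z : ℕ →₀ ℝ) : Pt M (y + z) = Pt M y + Pt M z := by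
  ext i
  simp only [Pt_apply, Finsupp.add_apply]
  split_ifs <;> simp

lemma Tt_add (M : ℕ) (y z : ℕ →₀ ℝ) : Tt M (y + z) = Tt M y + Tt M z := by
  ext i
  simp only [Tt_apply, Finsupp.add_apply]
  split_ifs <;> simp

lemma Pt_smul (M : ℕ) (c : ℝ) (y : ℕ →₀ ℝ) : Pt M (c • y) = c • Pt M y := by
  ext i
  simp only [Pt_apply, Finsupp.smul_apply, smul_eq_mul]
  split_ifs <;> simp

lemma Tt_smul (M : ℕ) (c : ℝ) (y : ℕ →₀ ℝ) : Tt M (c • y) = c • Tt M y := by
  ext i
  simp only [Tt_apply, Finsupp.smul_apply, smul_eq_mul]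
  split_ifs <;> simp

lemma Pt_add_Tt (M : ℕ) (y : ℕ →₀ ℝ) : Pt M y + Tt M y = y := by
  ext i
  simp only [Tt_apply, Pt_apply, Finsupp.add_apply]
  by_cases h : i < M
  · rw [if_pos h, if_neg (by omega), add_zero]
  · rw [if_neg h, if_pos (by omega), zero_add]

lemma pr_comb (M : ℕ) (g h : ℕ → ℝ) (α β : ℝ) (y : ℕ →₀ ℝ) :
    pr (fun i => if i < M then α * g i else β * h i) y =
      α * pr g (Pt M y) + β * pr h (Tt M y) := by
  have h1 : (Pt M y).support ⊆ y.support := by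
    intro i hi
    rw [Finsupp.mem_support_iff] at hi ⊢
    intro h0
    apply hi
    rw [Pt_apply, h0, ite_self]
  have h2 : (Tt M y).support ⊆ y.support := by
    intro i hi
    rw [Finsupp.mem_support_iff] at hi ⊢
    intro h0
    apply hi
    rw [Tt_apply, h0, ite_self]
  rw [pr_apply, pr_eq g _ h1, pr_eq h _ h2, Finset.mul_sum, Finset.mul_sum,
    ← Finset.sum_add_distrib]
  apply Finset.sum_congr rfl
  intro i _
  rw [Pt_apply, Tt_apply]
  by_cases h : i < M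
  · simp only [if_pos h, if_neg (show ¬ M ≤ i by omega)]
    ring
  · simp only [if_neg h, if_pos (show M ≤ i by omega)]
    ring

lemma abs_pr_le {g : ℕ → ℝ} (hg : ∀ i, |g i| ≤ 1) (y : ℕ →₀ ℝ) :
    |pr g y| ≤ ∑ i ∈ y.support, |y i| := by
  rw [pr_apply]
  refine (Finset.abs_sum_le_sum_abs _ _).trans (Finset.sum_le_sum fun i _ => ?_)
  rw [abs_mul]
  nlinarith [hg i, abs_nonneg (y i)]

/-- the norm -/
noncomputable def nm (e : Ex) (y : ℕ →₀ ℝ) : ℝ := sSup {t | ∃ g, Gd e g ∧ t = pr g y}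

lemma nm_bdd (y : ℕ →₀ ℝ) : BddAbove {t | ∃ g, Gd e g ∧ t = pr g y} := by
  refine ⟨∑ i ∈ y.support, |y i|, ?_⟩
  rintro _ ⟨g, hg, rfl⟩
  exact (le_abs_self _).trans (abs_pr_le hg.abs_le y)

lemma nm_ne (y : ℕ →₀ ℝ) : {t | ∃ g, Gd e g ∧ t = pr g y}.Nonempty := ⟨_, _, Gd.zero, rfl⟩

lemma pr_le_nm {g : ℕ → ℝ} (hg : Gd e g) (y : ℕ →₀ ℝ) : pr g y ≤ nm e y :=
  le_csSup (nm_bdd y) ⟨g, hg, rfl⟩

lemma nm_le {y : ℕ →₀ ℝ} {C : ℝ} (h : ∀ g, Gd e g → pr g y ≤ C) : nm e y ≤ C := by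
  refine csSup_le (nm_ne y) ?_
  rintro _ ⟨g, hg, rfl⟩
  exact h g hg

lemma exists_lt_pr {y : ℕ →₀ ℝ} {c : ℝ} (h : c < nm e y) : ∃ g, Gd e g ∧ c < pr g y := by
  obtain ⟨_, ⟨g, hg, rfl⟩, h2⟩ := exists_lt_of_lt_csSup (nm_ne y) h
  exact ⟨g, hg, h2⟩

lemma pr_neg (g : ℕ → ℝ) (y : ℕ →₀ ℝ) : pr (fun i => -(g i)) y = - pr g y := by
  rw [pr_apply, pr_apply, ← Finset.sum_neg_distrib]
  exact Finset.sum_congr rfl (fun i _ => by ring)

lemma abs_pr_le_nm {g : ℕ → ℝ} (hg : Gd e g) (y : ℕ →₀ ℝ) : |pr g y| ≤ nm e y := by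
  rw [abs_le]
  constructor
  · have := pr_le_nm hg.neg y
    rw [pr_neg] at this
    linarith
  · exact pr_le_nm hg y

lemma nm_nonneg (y : ℕ →₀ ℝ) : 0 ≤ nm e y := (abs_nonneg _).trans (abs_pr_le_nm Gd.zero y)

/-- Schreier sums are dominated by the norm -/
lemma sum_abs_le_nm (A : Finset ℕ) (hA : ∀ i ∈ A, A.card ≤ i + 1) (y : ℕ →₀ ℝ) :
    ∑ i ∈ A, |y i| ≤ nm e y := by
  classical
  have h1 : Gd e (fun i => if i ∈ A then SignType.sign (y i) else (0 : ℝ)) := by
    refine Gd.base A _ hA (fun i hi => by rw [if_neg hi]) (fun i => ?_)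
    split_ifs
    · rcases lt_trichotomy (y i) 0 with h | h | h
      · simp [sign_neg h]
      · simp [h]
      · simp [sign_pos h]
    · simp
  refine le_trans (le_of_eq ?_) (pr_le_nm h1 y)
  rw [pr_eq _ y (s := A ∪ y.support) Finset.subset_union_right,
    ← Finset.sum_subset (Finset.subset_union_left (s₁ := A) (s₂ := y.support))]
  · apply Finset.sum_congr rfl
    intro i hi
    rw [if_pos hi, self_mul_sign]
  · intro i _ hi
    rw [if_neg hi, mul_zero]

lemma abs_apply_le_nm (y : ℕ →₀ ℝ) (i : ℕ) : |y i| ≤ nm e y := by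
  have := sum_abs_le_nm (e := e) {i} (by simp) y
  simpa using this

lemma nm_add (y z : ℕ →₀ ℝ) : nm e (y + z) ≤ nm e y + nm e z := by
  apply nm_le
  intro g hg
  rw [map_add]
  exact add_le_add (pr_le_nm hg y) (pr_le_nm hg z)

lemma nm_smul_le (c : ℝ) (y : ℕ →₀ ℝ) : nm e (c • y) ≤ |c| * nm e y := by
  apply nm_le
  intro g hg
  rw [map_smul, smul_eq_mul]
  calc c * pr g y ≤ |c * pr g y| := le_abs_self _
    _ = |c| * |pr g y| := abs_mul _ _
    _ ≤ |c| * nm e y := by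
      gcongr
      exact abs_pr_le_nm hg y

lemma nm_smul (c : ℝ) (y : ℕ →₀ ℝ) : nm e (c • y) = |c| * nm e y := by
  apply le_antisymm (nm_smul_le c y)
  by_cases hc : c = 0
  · subst hc
    rw [abs_zero, zero_mul]
    exact nm_nonneg _
  · have h1 := nm_smul_le (e := e) c⁻¹ (c • y)
    rw [smul_smul, inv_mul_cancel₀ hc, one_smul, abs_inv] at h1
    have hc' : 0 < |c| := abs_pos.2 hc
    calc |c| * nm e y ≤ |c| * (|c|⁻¹ * nm e (c • y)) := by gcongr
      _ = nm e (c • y) := by field_simp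

lemma nm_eq_zero {y : ℕ →₀ ℝ} (h : nm e y = 0) : y = 0 := by
  ext i
  have := abs_apply_le_nm (e := e) y i
  rw [h] at this
  exact abs_eq_zero.1 (le_antisymm this (abs_nonneg _))

lemma nm_zero : nm e 0 = 0 := by
  apply le_antisymm _ (nm_nonneg _)
  apply nm_le
  intro g _
  rw [map_zero]

lemma nm_single (i : ℕ) : nm e (Finsupp.single i 1) = 1 := by
  apply le_antisymm
  · apply nm_le
    intro g hg
    unfold pr
    rw [Finsupp.linearCombination_single, one_smul]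
    exact (le_abs_self _).trans (hg.abs_le i)
  · have := abs_apply_le_nm (e := e) (Finsupp.single i 1) i
    simpa using this

/-- lower estimate -/
lemma nm_lower (M : ℕ) (y : ℕ →₀ ℝ) : N2 e (nm e (Pt M y)) (nm e (Tt M y)) ≤ nm e y := by
  set a := nm e (Pt M y) with ha
  set b := nm e (Tt M y) with hb
  have ha0 : 0 ≤ a := nm_nonneg _
  have hb0 : 0 ≤ b := nm_nonneg _
  have hy0 : 0 ≤ nm e y := nm_nonneg _
  rcases (N2_nonneg e ha0 hb0).eq_or_lt with h0 | hpos
  · rw [← h0]; exact hy0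
  obtain ⟨α, β, hα, hβ, hαβ, heq⟩ := N2_norming e ha0 hb0 hpos
  have hα1 := le_one_left e hα hβ hαβ
  have hβ1 := le_one_right e hα hβ hαβ
  apply le_of_forall_pos_le_add
  intro ε hε
  obtain ⟨g, hg, h1⟩ := exists_lt_pr (show a - ε / 2 < nm e (Pt M y) by rw [← ha]; linarith)
  obtain ⟨h, hh, h2⟩ := exists_lt_pr (show b - ε / 2 < nm e (Tt M y) by rw [← hb]; linarith)
  have h3 := pr_le_nm (Gd.comb M g h hg hh α β hα hβ hαβ) y
  rw [pr_comb] at h3
  rw [← heq]
  nlinarith [mul_le_mul_of_nonneg_left h1.le hα, mul_le_mul_of_nonneg_left h2.le hβ]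

lemma nm_Pt_le (M : ℕ) (y : ℕ →₀ ℝ) : nm e (Pt M y) ≤ nm e y :=
  (le_N2_left e (nm_nonneg _) (nm_nonneg _)).trans (nm_lower M y)

lemma nm_Tt_le (M : ℕ) (y : ℕ →₀ ℝ) : nm e (Tt M y) ≤ nm e y :=
  (le_N2_right e (nm_nonneg _) (nm_nonneg _)).trans (nm_lower M y)

/-- upper estimate up to an error -/
lemma pr_upper {N : ℕ} {c : ℝ} (hc : 0 ≤ c) {g : ℕ → ℝ} (hg : Gd e g) : ∀ z z' : ℕ →₀ ℝ,
    (∀ i, N ≤ i → z i = 0) → (∀ i, i < N → z' i = 0) → (∀ i, |z' i| ≤ c) →
    pr g (z + z') ≤ N2 e (nm e z) (nm e z') + N * c := by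
  induction hg with
  | base A g hA h1 h2 =>
    intro z z' hz hz' hzc
    have hg : Gd e g := Gd.base A g hA h1 h2
    rw [map_add]
    by_cases hex : ∃ i ∈ A, i < N
    · obtain ⟨i, hi, hiN⟩ := hex
      have h3 : pr g z ≤ N2 e (nm e z) (nm e z') :=
        (pr_le_nm hg z).trans (le_N2_left e (nm_nonneg _) (nm_nonneg _))
      have h4 : pr g z' ≤ N * c := by
        rw [pr_eq g z' (s := A ∪ z'.support) Finset.subset_union_right,
          ← Finset.sum_subset (Finset.subset_union_left (s₁ := A) (s₂ := z'.support))]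
        · calc ∑ i ∈ A, z' i * g i ≤ ∑ i ∈ A, c := by
                apply Finset.sum_le_sum
                intro j _
                calc z' j * g j ≤ |z' j * g j| := le_abs_self _
                  _ = |z' j| * |g j| := abs_mul _ _
                  _ ≤ c * 1 := mul_le_mul (hzc j) (h2 j) (abs_nonneg _) hc
                  _ = c := mul_one c
            _ = A.card * c := by rw [Finset.sum_const, nsmul_eq_mul]
            _ ≤ N * c := by
                have := hA i hi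
                have h5 : (A.card : ℝ) ≤ N := by exact_mod_cast (by omega : A.card ≤ N)
                gcongr
        · intro j _ hj
          rw [h1 j hj, mul_zero]
      linarith
    · push Not at hex
      have h3 : pr g z = 0 := by
        rw [pr_apply]
        apply Finset.sum_eq_zero
        intro i _
        by_cases hi : i ∈ A
        · rw [hz i (hex i hi), zero_mul]
        · rw [h1 i hi, mul_zero]
      have h4 : pr g z' ≤ N2 e (nm e z) (nm e z') :=
        (pr_le_nm hg z').trans (le_N2_right e (nm_nonneg _) (nm_nonneg _))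
      have h5 : (0 : ℝ) ≤ N * c := by positivity
      linarith
  | comb M g h hg hh α β hα hβ hαβ ihg ihh =>
    intro z z' hz hz' hzc
    have hNc : (0 : ℝ) ≤ N * c := by positivity
    have hα1 : α ≤ 1 := le_one_left e hα hβ hαβ
    have hβ1 : β ≤ 1 := le_one_right e hα hβ hαβ
    rw [pr_comb]
    by_cases hMN : M ≤ N
    · have e1 : Pt M (z + z') = Pt M z := by
        ext i
        simp only [Pt_apply, Finsupp.add_apply]
        split_ifs with hi
        · rw [hz' i (by omega), add_zero]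
        · rfl
      have e2 : Tt M (z + z') = Tt M z + z' := by
        ext i
        simp only [Tt_apply, Finsupp.add_apply]
        split_ifs with hi
        · rfl
        · rw [hz' i (by omega), add_zero]
      rw [e1, e2]
      have h3 := pr_le_nm hg (Pt M z)
      have h4 := ihh (Tt M z) z' (fun i hi => by
        rw [Tt_apply, hz i hi, ite_self]) hz' hzc
      have h5 := N2_holder e (nm_nonneg (e := e) (Pt M z))
        (N2_nonneg e (nm_nonneg (e := e) (Tt M z)) (nm_nonneg (e := e) z')) hα hβ hαβ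
      rw [N2_assoc e (nm_nonneg _) (nm_nonneg _) (nm_nonneg _)] at h5
      have h6 := N2_mono e (N2_nonneg e (nm_nonneg (e := e) (Pt M z)) (nm_nonneg (e := e) (Tt M z)))
        (nm_nonneg (e := e) z') (nm_lower M z) le_rfl
      have h7 := mul_le_mul_of_nonneg_left h3 hα
      have h8 := mul_le_mul_of_nonneg_left h4 hβ
      have h9 : β * (N * c) ≤ N * c := by nlinarith
      linarith
    · have e1 : Pt M (z + z') = z + Pt M z' := by
        ext i
        simp only [Pt_apply, Finsupp.add_apply]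
        split_ifs with hi
        · rfl
        · rw [hz i (by omega), add_zero]
      have e2 : Tt M (z + z') = Tt M z' := by
        ext i
        simp only [Tt_apply, Finsupp.add_apply]
        split_ifs with hi
        · rw [hz i (by omega), zero_add]
        · rfl
      rw [e1, e2]
      have h3 := pr_le_nm hh (Tt M z')
      have h4 := ihg z (Pt M z') hz (fun i hi => by
        rw [Pt_apply, hz' i hi, ite_self]) (fun i => by
          rw [Pt_apply]
          split_ifs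
          · exact hzc i
          · simpa using hc)
      have h5 := N2_holder e
        (N2_nonneg e (nm_nonneg (e := e) z) (nm_nonneg (e := e) (Pt M z')))
        (nm_nonneg (e := e) (Tt M z')) hα hβ hαβ
      rw [← N2_assoc e (nm_nonneg _) (nm_nonneg _) (nm_nonneg _)] at h5
      have h6 := N2_mono e (nm_nonneg (e := e) z)
        (N2_nonneg e (nm_nonneg (e := e) (Pt M z')) (nm_nonneg (e := e) (Tt M z')))
        le_rfl (nm_lower M z')
      have h7 := mul_le_mul_of_nonneg_left h3 hβ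
      have h8 := mul_le_mul_of_nonneg_left h4 hα
      have h9 : α * (N * c) ≤ N * c := by nlinarith
      linarith

lemma nm_upper {N : ℕ} {c : ℝ} (hc : 0 ≤ c) (z z' : ℕ →₀ ℝ)
    (hz : ∀ i, N ≤ i → z i = 0) (hz' : ∀ i, i < N → z' i = 0) (hzc : ∀ i, |z' i| ≤ c) :
    nm e (z + z') ≤ N2 e (nm e z) (nm e z') + N * c :=
  nm_le fun _ hg => pr_upper hc hg z z' hz hz' hzc

end Pool.Agent.Y767.KG
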