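import Pool.Agent.Y767.KG.Bae1

/-! Adapted from `Pool.Agent.H376R3.Bae2`. -/

set_option autoImplicit false
set_option linter.unusedSectionVars false

namespace Pool.Agent.Y767.KG

open Filter Topology

/-- finitely supported sequences with the norm `nm` -/
def E (_e : Ex) : Type := ℕ →₀ ℝ

variable (e : Ex)

noncomputable instance : AddCommGroup (E e) := inferInstanceAs (AddCommGroup (ℕ →₀ ℝ))
noncomputable instance : Module ℝ (E e) := inferInstanceAs (Module ℝ (ℕ →₀ ℝ))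
noncomputable instance : Norm (E e) := ⟨fun y => nm e y⟩

lemma norm_def (y : E e) : ‖y‖ = nm e y := rfl

lemma core : NormedSpace.Core ℝ (E e) where
  norm_nonneg y := nm_nonneg y
  norm_smul c y := by
    rw [norm_def, norm_def, Real.norm_eq_abs]
    exact nm_smul c y
  norm_triangle y z := nm_add y z
  norm_eq_zero_iff y := by
    constructor
    · intro h; exact nm_eq_zero h
    · rintro rfl; exact nm_zero

noncomputable instance : NormedAddCommGroup (E e) := NormedAddCommGroup.ofCore (core e)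
noncomputable instance : NormedSpace ℝ (E e) := NormedSpace.ofCore (core e)

/-- tail operator -/
noncomputable def TL (M : ℕ) : E e →L[ℝ] E e :=
  LinearMap.mkContinuous
    { toFun := fun y => Tt M y
      map_add' := fun y z => Tt_add M y z
      map_smul' := fun c y => Tt_smul M c y } 1 (fun y => by
        rw [one_mul]
        exact nm_Tt_le M y)

lemma TL_apply (M : ℕ) (y : E e) : TL e M y = Tt M y := rfl

/-- coordinate functional -/
noncomputable def ev (i : ℕ) : E e →L[ℝ] ℝ :=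
  LinearMap.mkContinuous
    { toFun := fun y => (show ℕ →₀ ℝ from y) i
      map_add' := fun _ _ => rfl
      map_smul' := fun _ _ => rfl } 1 (fun y => by
        rw [one_mul]
        exact abs_apply_le_nm y i)

lemma ev_apply (i : ℕ) (y : E e) : ev e i y = (show ℕ →₀ ℝ from y) i := rfl

/-- unit vectors -/
noncomputable def uv (i : ℕ) : E e := (Finsupp.single i 1 : ℕ →₀ ℝ)

lemma norm_uv (i : ℕ) : ‖uv e i‖ = 1 := nm_single i

variable {e}

/-- flattening -/
lemma flat (w : E e →L[ℝ] ℝ) {t : ℝ}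
    (H : ∀ N, ∃ y : ℕ →₀ ℝ, (∀ i, i < N → y i = 0) ∧ nm e y ≤ 1 ∧ t < w y) (N n : ℕ) :
    ∃ y : ℕ →₀ ℝ, (∀ i, i < N → y i = 0) ∧ nm e y ≤ n ∧ n * t ≤ w y ∧ ∀ i, |y i| ≤ 1 := by
  induction n with
  | zero =>
    refine ⟨0, fun i _ => rfl, ?_, ?_, fun i => by simp⟩
    · rw [nm_zero]; simp
    · have : w (0 : ℕ →₀ ℝ) = 0 := map_zero w
      rw [this]; simp
  | succ n ih =>
    obtain ⟨y, h1, h2, h3, h4⟩ := ih
    set M := max N (y.support.sup id + 1) with hM
    obtain ⟨z, g1, g2, g3⟩ := H M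
    have hyM : ∀ i, M ≤ i → y i = 0 := by
      intro i hi
      by_contra hne
      have h5 : i ≤ y.support.sup id :=
        Finset.le_sup (f := id) (Finsupp.mem_support_iff.2 hne)
      have h6 : y.support.sup id + 1 ≤ M := le_max_right _ _
      omega
    refine ⟨y + z, fun i hi => ?_, ?_, ?_, fun i => ?_⟩
    · have h5 : N ≤ M := le_max_left _ _
      rw [Finsupp.add_apply, h1 i hi, g1 i (by omega), add_zero]
    · refine (nm_add y z).trans ?_
      push_cast
      linarith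
    · have h5 : w (y + z) = w y + w z := map_add w (y : E e) z
      rw [h5]
      push_cast
      linarith
    · rw [Finsupp.add_apply]
      by_cases hi : i < M
      · rw [g1 i hi, add_zero]; exact h4 i
      · rw [hyM i (by omega), zero_add]
        exact (abs_apply_le_nm z i).trans g2

/-- the basis is shrinking -/
lemma shrinking (w : E e →L[ℝ] ℝ) {δ : ℝ} (hδ : 0 < δ) :
    ∃ N, ∀ y : ℕ →₀ ℝ, (∀ i, i < N → y i = 0) → |w y| ≤ δ * nm e y := by
  -- tail norms
  set θ : ℕ → ℝ := fun N => ‖w.comp (TL e N)‖ with hθ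
  have hbound : ∀ N (y : ℕ →₀ ℝ), (∀ i, i < N → y i = 0) → |w y| ≤ θ N * nm e y := by
    intro N y hy
    have h1 := (w.comp (TL e N)).le_opNorm y
    have h3 : Tt N y = y := by
      ext i
      rw [Tt_apply]
      split_ifs with h
      · rfl
      · rw [hy i (by omega)]
    have h2 : w.comp (TL e N) y = w y := congrArg (fun z : ℕ →₀ ℝ => w z) h3
    rw [h2] at h1
    exact h1
  by_contra hcon
  push Not at hcon
  have hθδ : ∀ N, δ ≤ θ N := by
    intro N
    obtain ⟨y, hy1, hy2⟩ := hcon N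
    have h1 := hbound N y hy1
    by_contra h
    push Not at h
    have := mul_le_mul_of_nonneg_right h.le (nm_nonneg (e := e) y)
    linarith
  have hbdd : BddBelow (Set.range θ) := ⟨δ, by rintro _ ⟨N, rfl⟩; exact hθδ N⟩
  set τ := ⨅ N, θ N with hτ
  have hτδ : δ ≤ τ := le_ciInf hθδ
  have hτp : 0 < τ := hδ.trans_le hτδ
  have hτle : ∀ N, τ ≤ θ N := fun N => ciInf_le hbdd N
  -- the constants
  set κ : ℝ := (2:ℝ) ^ (1 / e.p) with hκ
  have hκ2 : κ < 2 := two_rpow_lt e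
  have hκ0 : 0 < κ := Real.rpow_pos_of_pos (by norm_num) _
  set η : ℝ := (2 - κ) / 8 with hη
  have hη0 : 0 < η := by rw [hη]; linarith
  have hη1 : η < 1 := by rw [hη]; linarith
  obtain ⟨N, hN⟩ := exists_lt_of_ciInf_lt (show ⨅ N, θ N < τ * (1 + η) by
    rw [← hτ]; nlinarith)
  have H : ∀ N, ∃ y : ℕ →₀ ℝ, (∀ i, i < N → y i = 0) ∧ nm e y ≤ 1 ∧ τ * (1 - η) < w y := by
    intro N
    have h1 : τ * (1 - η) < ‖w.comp (TL e N)‖ := by
      have := hτle N
      simp only [hθ] at this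
      nlinarith
    obtain ⟨y, hy1, hy2⟩ : ∃ y : ℕ →₀ ℝ, nm e y < 1 ∧ τ * (1 - η) < ‖(w.comp (TL e N)) y‖ :=
      (w.comp (TL e N)).exists_lt_apply_of_lt_opNorm h1
    have h3 : nm e (Tt N y) ≤ 1 := (nm_Tt_le N y).trans hy1.le
    have h4 : w.comp (TL e N) y = w (Tt N y) := rfl
    rw [h4, Real.norm_eq_abs] at hy2
    rcases le_total 0 (w (Tt N y)) with h5 | h5
    · rw [abs_of_nonneg h5] at hy2
      exact ⟨Tt N y, fun i hi => by rw [Tt_apply, if_neg (by omega)], h3, hy2⟩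
    · rw [abs_of_nonpos h5] at hy2
      refine ⟨(-1 : ℝ) • Tt N y, fun i hi => ?_, ?_, ?_⟩
      · rw [Finsupp.smul_apply, Tt_apply, if_neg (by omega), smul_zero]
      · rw [nm_smul]; simpa using h3
      · have h6 : w ((-1 : ℝ) • Tt N y) = (-1 : ℝ) • w (Tt N y) :=
          w.map_smul (-1 : ℝ) (show E e from Tt N y)
        rw [h6]
        simpa using hy2
  obtain ⟨z, z1, z2, z3⟩ := H N
  set M := max N (z.support.sup id + 1) with hM
  have hzM : ∀ i, M ≤ i → z i = 0 := by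
    intro i hi
    by_contra hne
    have h5 : i ≤ z.support.sup id :=
      Finset.le_sup (f := id) (Finsupp.mem_support_iff.2 hne)
    have h6 : z.support.sup id + 1 ≤ M := le_max_right _ _
    omega
  have hNM : N ≤ M := le_max_left _ _
  obtain ⟨n, hn⟩ := exists_nat_gt ((M:ℝ) / η)
  obtain ⟨y, y1, y2, y3, y4⟩ := flat w H M n
  have hnp : (0 : ℝ) < n := lt_of_le_of_lt (by positivity) hn
  set z' : ℕ →₀ ℝ := (n : ℝ)⁻¹ • y with hz'
  have a1 : ∀ i, i < M → z' i = 0 := by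
    intro i hi
    rw [hz', Finsupp.smul_apply, y1 i hi, smul_zero]
  have a2 : nm e z' ≤ 1 := by
    rw [hz', nm_smul, abs_of_pos (by positivity), inv_mul_le_iff₀ hnp, mul_one]
    exact y2
  have a3 : τ * (1 - η) ≤ w z' := by
    have h6 : w z' = (n : ℝ)⁻¹ • w y := w.map_smul ((n : ℝ)⁻¹) (show E e from y)
    rw [h6, smul_eq_mul, inv_mul_eq_div, le_div_iff₀ hnp, mul_comm]
    exact y3
  have a4 : ∀ i, |z' i| ≤ (n : ℝ)⁻¹ := by
    intro i
    rw [hz', Finsupp.smul_apply, smul_eq_mul, abs_mul, abs_of_pos (by positivity)]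
    have := y4 i
    calc (n : ℝ)⁻¹ * |y i| ≤ (n : ℝ)⁻¹ * 1 := by gcongr
      _ = _ := mul_one _
  have b1 := nm_upper (e := e) (by positivity) z z' hzM a1 a4
  have b2 : (M : ℝ) * (n : ℝ)⁻¹ ≤ η := by
    rw [← div_eq_mul_inv, div_le_iff₀ hnp]
    rw [div_lt_iff₀ hη0] at hn
    linarith
  have b3 : N2 e (nm e z) (nm e z') ≤ κ :=
    N2_le_of_le_one e (nm_nonneg _) (nm_nonneg _) z2 a2
  have b4 := hbound N (z + z') (fun i hi => by
    rw [Finsupp.add_apply, z1 i hi, a1 i (by omega), add_zero])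
  have b5 : w (z + z') = w z + w z' := map_add w (z : E e) z'
  rw [b5] at b4
  have b6 : w z + w z' ≤ θ N * nm e (z + z') := (le_abs_self _).trans b4
  have b7 : nm e (z + z') ≤ κ + η := by linarith
  have b8 : θ N * nm e (z + z') ≤ (τ * (1 + η)) * (κ + η) :=
    mul_le_mul hN.le b7 (nm_nonneg _) (by positivity)
  have b9 : τ * (2 * (1 - η)) < τ * ((1 + η) * (κ + η)) := by
    linarith [mul_assoc τ (1 + η) (κ + η)]
  have b10 := lt_of_mul_lt_mul_left b9 hτp.le
  have b11 : κ = 2 - 8 * η := by rw [hη]; ring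
  rw [b11] at b10
  nlinarith

lemma ap_add (w : E e →L[ℝ] ℝ) (y z : ℕ →₀ ℝ) :
    w (show ℕ →₀ ℝ from y + z) = w y + w z := map_add w (y : E e) z

lemma lin_bound (g : (ℕ →₀ ℝ) →ₗ[ℝ] ℝ) (N : ℕ) {c : ℝ}
    (hc : ∀ i < N, |g (Finsupp.single i 1)| ≤ c) (y : ℕ →₀ ℝ) (hy : ∀ i, N ≤ i → y i = 0) :
    |g y| ≤ N * (nm e y * c) := by
  have h4 : y = ∑ i ∈ Finset.range N, y i • (Finsupp.single i 1 : ℕ →₀ ℝ) := by
    ext j
    rw [Finsupp.finsetSum_apply]
    by_cases hj : j < N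
    · rw [Finset.sum_eq_single j]
      · simp
      · intro i _ hij
        simp [Finsupp.single_apply, hij]
      · intro h; exact absurd (Finset.mem_range.2 hj) h
    · rw [hy j (by omega)]
      symm
      apply Finset.sum_eq_zero
      intro i hi
      have : i ≠ j := by rw [Finset.mem_range] at hi; omega
      simp [Finsupp.single_apply, this]
  have h5 : g y = ∑ i ∈ Finset.range N, y i * g (Finsupp.single i 1) := by
    conv_lhs => rw [h4]
    rw [map_sum]
    apply Finset.sum_congr rfl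
    intro i _
    rw [map_smul, smul_eq_mul]
  rw [h5]
  calc |∑ i ∈ Finset.range N, y i * g (Finsupp.single i 1)|
      ≤ ∑ i ∈ Finset.range N, |y i * g (Finsupp.single i 1)| :=
        Finset.abs_sum_le_sum_abs _ _
    _ ≤ ∑ i ∈ Finset.range N, nm e y * c := by
        apply Finset.sum_le_sum
        intro i hi
        rw [abs_mul]
        exact mul_le_mul (abs_apply_le_nm y i) (hc i (Finset.mem_range.1 hi)) (abs_nonneg _)
          (nm_nonneg _)
    _ = N * (nm e y * c) := by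
        rw [Finset.sum_const, Finset.card_range, nsmul_eq_mul]

/-- every sequence in the unit ball of the dual contains close pairs -/
lemma close_pair (f : ℕ → (E e →L[ℝ] ℝ)) (hf : ∀ n, ‖f n‖ ≤ 1) {δ : ℝ} (hδ : 0 < δ) :
    ∃ n m, n ≠ m ∧ ‖f n - f m‖ ≤ 2 ^ (1 / e.q) + 5 * δ := by
  classical
  -- weak star limit
  obtain ⟨w, hw, hlim⟩ : ∃ w : E e →L[ℝ] ℝ, ‖w‖ ≤ 1 ∧
      ∀ y : E e, Tendsto (fun n => f n y) (hyperfilter ℕ : Filter ℕ) (𝓝 (w y)) := by
    have hc := WeakDual.isCompact_closedBall (𝕜 := ℝ) (E := E e) 0 1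
    let F : ℕ → WeakDual ℝ (E e) := fun n => StrongDual.toWeakDual (f n)
    have h1 : ((hyperfilter ℕ).map F : Filter (WeakDual ℝ (E e))) ≤
        𝓟 (WeakDual.toStrongDual ⁻¹' Metric.closedBall (0 : StrongDual ℝ (E e)) 1) := by
      rw [le_principal_iff, Ultrafilter.mem_coe, Ultrafilter.mem_map]
      filter_upwards with n
      change f n ∈ Metric.closedBall (0 : StrongDual ℝ (E e)) 1
      simpa using hf n
    obtain ⟨w, hw, hle⟩ := hc.ultrafilter_le_nhds ((hyperfilter ℕ).map F) h1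
    refine ⟨WeakDual.toStrongDual w, by simpa using hw, fun y => ?_⟩
    have h2 : Tendsto F (hyperfilter ℕ : Filter ℕ) (𝓝 w) := hle
    exact ((WeakDual.eval_continuous y).tendsto w).comp h2
  have hP : ∀ (N : ℕ), ∀ᶠ n in (hyperfilter ℕ : Filter ℕ), ∀ y : ℕ →₀ ℝ,
      (∀ i, N ≤ i → y i = 0) → |f n y - w y| ≤ δ * nm e y := by
    intro N
    have h1 : ∀ᶠ n in (hyperfilter ℕ : Filter ℕ), ∀ i ∈ Finset.range N,
        |f n (uv e i) - w (uv e i)| < δ / (N + 1) := by
      rw [Filter.eventually_all_finset]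
      intro i _
      have h2 := hlim (uv e i)
      have h3 := Metric.tendsto_nhds.1 h2 (δ / (N + 1)) (by positivity)
      filter_upwards [h3] with n hn
      rw [Real.dist_eq] at hn
      exact hn
    filter_upwards [h1] with n hn y hy
    have h5 := lin_bound (e := e) ((f n - w : E e →L[ℝ] ℝ) : E e →ₗ[ℝ] ℝ) N
      (c := δ / (N + 1)) (fun i hi => (hn i (Finset.mem_range.2 hi)).le) y hy
    calc |f n y - w y| ≤ N * (nm e y * (δ / (N + 1))) := h5
      _ = (N / (N + 1)) * (δ * nm e y) := by ring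
      _ ≤ 1 * (δ * nm e y) := by
          apply mul_le_mul_of_nonneg_right _ (mul_nonneg hδ.le (nm_nonneg y))
          rw [div_le_one (by positivity)]
          linarith
      _ = δ * nm e y := one_mul _
  obtain ⟨N, hN⟩ := shrinking w hδ
  obtain ⟨n, hn⟩ := (hP N).exists
  obtain ⟨N', hN'⟩ := shrinking (f n) hδ
  set L := max N N' with hL
  have hne : ∀ᶠ m in (hyperfilter ℕ : Filter ℕ), m ≠ n := by
    have : ({n}ᶜ : Set ℕ) ∈ hyperfilter ℕ := compl_mem_hyperfilter_of_finite (Set.finite_singleton n)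
    exact this
  obtain ⟨m, hm, hmn⟩ := ((hP L).and hne).exists
  refine ⟨n, m, hmn.symm, ?_⟩
  apply ContinuousLinearMap.opNorm_le_of_unit_norm (by positivity) ?_
  change ∀ y : ℕ →₀ ℝ, nm e y = 1 → ‖(f n - f m) y‖ ≤ 2 ^ (1 / e.q) + 5 * δ
  intro y hy1
  -- three pieces
  set y₁ := Pt N y with hy₁
  set y₂ := Pt L (Tt N y) with hy₂
  set y₃ := Tt L (Tt N y) with hy₃
  have hsum : (y : ℕ →₀ ℝ) = y₁ + (y₂ + y₃) := by
    rw [hy₁, hy₂, hy₃, Pt_add_Tt, Pt_add_Tt]
  have hNL : N ≤ L := le_max_left _ _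
  have hN'L : N' ≤ L := le_max_right _ _
  have k1 : nm e y₁ ≤ 1 := (nm_Pt_le _ _).trans hy1.le
  have k0 : nm e (Tt N y) ≤ 1 := (nm_Tt_le _ _).trans hy1.le
  have k2 : nm e y₂ ≤ 1 := (nm_Pt_le _ _).trans k0
  have k3 : nm e y₃ ≤ 1 := (nm_Tt_le _ _).trans k0
  have k4 : N2 e (nm e y₂) (nm e y₃) ≤ 1 := (nm_lower L (Tt N y)).trans k0
  have k5 := add_le_of_N2 e (nm_nonneg (e := e) y₂) (nm_nonneg (e := e) y₃) k4
  have z1 : ∀ i, N ≤ i → y₁ i = 0 := fun i hi => by rw [hy₁, Pt_apply, if_neg (by omega)]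
  have z1' : ∀ i, L ≤ i → y₁ i = 0 := fun i hi => z1 i (by omega)
  have z2 : ∀ i, L ≤ i → y₂ i = 0 := fun i hi => by rw [hy₂, Pt_apply, if_neg (by omega)]
  have z2' : ∀ i, i < N → y₂ i = 0 := fun i hi => by
    rw [hy₂, Pt_apply, Tt_apply, if_neg (show ¬ N ≤ i by omega), ite_self]
  have z3 : ∀ i, i < L → y₃ i = 0 := fun i hi => by rw [hy₃, Tt_apply, if_neg (by omega)]
  have m1 := hn y₁ z1
  have m2 := hm y₁ z1'
  have m3 := hm y₂ z2
  have m4 := hN y₂ z2'
  have m5 := hN' y₃ (fun i hi => z3 i (by omega))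
  have m6 : |f n y₂| ≤ nm e y₂ := by
    have := (f n).le_opNorm y₂
    have h0 : 0 ≤ nm e y₂ := nm_nonneg _
    calc |f n y₂| ≤ ‖f n‖ * nm e y₂ := this
      _ ≤ 1 * nm e y₂ := by gcongr; exact hf n
      _ = _ := one_mul _
  have m7 : |f m y₃| ≤ nm e y₃ := by
    have := (f m).le_opNorm y₃
    have h0 : 0 ≤ nm e y₃ := nm_nonneg _
    calc |f m y₃| ≤ ‖f m‖ * nm e y₃ := this
      _ ≤ 1 * nm e y₃ := by gcongr; exact hf m
      _ = _ := one_mul _
  have e1 : f n y = f n y₁ + (f n y₂ + f n y₃) := by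
    rw [← ap_add, ← ap_add]
    exact congrArg (fun z : ℕ →₀ ℝ => f n z) hsum
  have e2 : f m y = f m y₁ + (f m y₂ + f m y₃) := by
    rw [← ap_add, ← ap_add]
    exact congrArg (fun z : ℕ →₀ ℝ => f m z) hsum
  change ‖f n y - f m y‖ ≤ _
  rw [Real.norm_eq_abs, e1, e2]
  rw [abs_le] at m1 m2 m3 m4 m5 m6 m7 ⊢
  have n1 : δ * nm e y₁ ≤ δ := by nlinarith
  have n2 : δ * nm e y₂ ≤ δ := by nlinarith
  have n3 : δ * nm e y₃ ≤ δ := by nlinarith
  constructor <;> linarith [m1.1, m1.2, m2.1, m2.2, m3.1, m3.2, m4.1, m4.2, m5.1, m5.2, m6.1,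
    m6.2, m7.1, m7.2]

end Pool.Agent.Y767.KG
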